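import Mathlib
import Pool.Agent.helper63.SAT.Defs

/-!
# The contraction of the minimal edge, and folds (MP_582ec8_co)
-/

namespace Pool.Agent.helper77.Sat

open Pool.Agent.helper63.SAT

variable {V : Type*}

/-- The contraction map `V → V`: `b` is identified with `a`. -/
noncomputable def proj (a b : V) (v : V) : V := by
  classical
  exact if v = b then a else v

/-- Adjacency in the contraction `G/ab`: two different vertices which are the images of the
endpoints of an edge of `G`. -/
def QAdj (G : EOGraph V) (a b : V) (x y : V) : Prop :=
  x ≠ y ∧ ∃ x' y', proj a b x' = x ∧ proj a b y' = y ∧ G.graph.Adj x' y'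

/-- The label of an edge `xy` of the contraction `G/ab`: the least label of an edge of `G` which is
mapped to `xy`. -/
noncomputable def QLab (G : EOGraph V) (a b : V) (x y : V) : ℕ :=
  sInf {k | ∃ x' y', proj a b x' = x ∧ proj a b y' = y ∧ G.graph.Adj x' y' ∧
    k = G.label s(x', y')}

/-- `φ` is a fold of `G` onto `G/ab` with respect to the set `D` of decreasing vertices and the
ranks `t`: a homomorphism from `G` to the contraction `G/ab` which is injective outside the fibre
of the contracted vertex `a` and weakly monotone for the labels; among the edges which are mapped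
to the same edge `ac` of `G/ab`, the label increases with the rank of the endpoint over `a` if
`c ∉ D` and decreases if `c ∈ D`. -/
structure Fold (G : EOGraph V) (a b : V) (D : Set V) (φ : V → V) (t : V → ℕ) : Prop where
  inj : ∀ x y, φ x = φ y → φ x ≠ a → x = y
  adj : ∀ x y, G.graph.Adj x y → QAdj G a b (φ x) (φ y)
  mono : ∀ x y z w, G.graph.Adj x y → G.graph.Adj z w → G.label s(x, y) < G.label s(z, w) →
    QLab G a b (φ x) (φ y) ≤ QLab G a b (φ z) (φ w)
  rank_inj : Function.Injective t
  incr : ∀ x z y w, G.graph.Adj x y → G.graph.Adj z w → G.label s(x, y) < G.label s(z, w) →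
    φ x = a → φ z = a → φ y = φ w → φ y ∉ D → t x < t z
  decr : ∀ x z y w, G.graph.Adj x y → G.graph.Adj z w → G.label s(x, y) < G.label s(z, w) →
    φ x = a → φ z = a → φ y = φ w → φ y ∈ D → t z < t x

/-- No edge of `G` lies strictly between `ac` and `bc` in the order, for every common neighbour
`c` of `a` and `b`. -/
def Consecutive (G : EOGraph V) (a b : V) : Prop :=
  ∀ c, G.graph.Adj a c → G.graph.Adj b c → ∀ x y, G.graph.Adj x y →
    ¬ (G.label s(a, c) < G.label s(x, y) ∧ G.label s(x, y) < G.label s(b, c)) ∧
    ¬ (G.label s(b, c) < G.label s(x, y) ∧ G.label s(x, y) < G.label s(a, c))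

/-- The set `D` is a choice of directions for which `G` has no fold: `D` contains those common
neighbours `c` of `a` and `b` for which `bc` is smaller than `ac`, but no other common neighbour,
and there is no fold with respect to `D`. -/
def NoFold (G : EOGraph V) (a b : V) (D : Set V) : Prop :=
  (∀ c, G.graph.Adj a c → G.graph.Adj b c → (c ∈ D ↔ G.label s(b, c) < G.label s(a, c))) ∧
    ∀ φ t, ¬ Fold G a b D φ t

/-- Deleting the edge `ab` lowers the chromatic number: for some `k` there is no proper
`k`-colouring of `G`, but there is a proper `k`-colouring of `G - ab`. -/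
def Critical (G : EOGraph V) (a b : V) : Prop :=
  ∃ k : ℕ, ¬ G.graph.Colorable k ∧ (G.graph.deleteEdges {s(a, b)}).Colorable k

end Pool.Agent.helper77.Sat
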