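import Mathlib
import Pool.Agent.helper63.SAT.Defs
import Pool.Agent.helper63.SAT.Greedy
import Pool.Agent.helper77.Sat.Defs

/-!
# The ordered blow-up of the contraction
-/

namespace Pool.Agent.helper77.Sat

open Pool.Agent.helper63.SAT Pool.Agent.helper63.SAT.EOGraph

variable {V : Type*}

lemma proj_b (a b : V) : proj a b b = a := by
  classical
  simp [proj]

lemma proj_ne {a b v : V} (h : v ≠ b) : proj a b v = v := by
  classical
  simp [proj, h]

lemma proj_ne_b {a b : V} (hab : a ≠ b) (v : V) : proj a b v ≠ b := by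
  classical
  by_cases h : v = b
  · rw [h, proj_b]; exact hab
  · rw [proj_ne h]; exact h

lemma QAdj.symm {G : EOGraph V} {a b x y : V} (h : QAdj G a b x y) : QAdj G a b y x := by
  obtain ⟨h1, x', y', hx, hy, hadj⟩ := h
  exact ⟨h1.symm, y', x', hy, hx, hadj.symm⟩

lemma QLab_comm (G : EOGraph V) (a b x y : V) : QLab G a b x y = QLab G a b y x := by
  unfold QLab
  congr 1
  ext k
  constructor
  · rintro ⟨x', y', h1, h2, h3, h4⟩
    exact ⟨y', x', h2, h1, h3.symm, by rw [h4, Sym2.eq_swap]⟩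
  · rintro ⟨x', y', h1, h2, h3, h4⟩
    exact ⟨y', x', h2, h1, h3.symm, by rw [h4, Sym2.eq_swap]⟩

lemma QLab_le {G : EOGraph V} {a b x' y' : V} (h : G.graph.Adj x' y') :
    QLab G a b (proj a b x') (proj a b y') ≤ G.label s(x', y') :=
  Nat.sInf_le ⟨x', y', rfl, rfl, h, rfl⟩

lemma QLab_mem {G : EOGraph V} {a b x y : V} (h : QAdj G a b x y) :
    ∃ x' y', proj a b x' = x ∧ proj a b y' = y ∧ G.graph.Adj x' y' ∧
      QLab G a b x y = G.label s(x', y') := by
  obtain ⟨_, x', y', hx, hy, hadj⟩ := h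
  have hne : {k | ∃ x' y', proj a b x' = x ∧ proj a b y' = y ∧ G.graph.Adj x' y' ∧
    k = G.label s(x', y')}.Nonempty := ⟨_, x', y', hx, hy, hadj, rfl⟩
  exact Nat.sInf_mem hne

/-- The decreasing blocks. -/
def Dec (a : V) (D : Set V) (x y : V) : Prop := (x = a ∧ y ∈ D) ∨ (x ∈ D ∧ y = a)

lemma Dec.symm {a : V} {D : Set V} {x y : V} (h : Dec a D x y) : Dec a D y x :=
  h.elim (fun h => Or.inr ⟨h.2, h.1⟩) fun h => Or.inl ⟨h.2, h.1⟩

section

variable {n : ℕ}

/-- The index of a vertex of the blown-up class. -/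
noncomputable def uv (a : V) (ρ : Fin n → V) (p : Fin n) : ℕ := by
  classical
  exact if ρ p = a then (p : ℕ) else 0

/-- Offset inside a block. -/
noncomputable def off (a : V) (D : Set V) (ρ : Fin n → V) (p r : Fin n) : ℕ := by
  classical
  exact if Dec a D (ρ p) (ρ r) then n - 1 - (uv a ρ p + uv a ρ r) else uv a ρ p + uv a ρ r

lemma off_comm (a : V) (D : Set V) (ρ : Fin n → V) (p r : Fin n) :
    off a D ρ p r = off a D ρ r p := by
  classical
  unfold off
  have h : Dec a D (ρ p) (ρ r) ↔ Dec a D (ρ r) (ρ p) := ⟨Dec.symm, Dec.symm⟩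
  by_cases h1 : Dec a D (ρ p) (ρ r)
  · rw [if_pos h1, if_pos (h.1 h1), add_comm]
  · rw [if_neg h1, if_neg (fun h2 => h1 (h.2 h2)), add_comm]

lemma uv_of_ne {a : V} {ρ : Fin n → V} {p : Fin n} (h : ρ p ≠ a) : uv a ρ p = 0 := by
  classical
  simp [uv, h]

lemma uv_of_eq {a : V} {ρ : Fin n → V} {p : Fin n} (h : ρ p = a) : uv a ρ p = p := by
  classical
  simp [uv, h]

lemma sum_lt {a : V} {ρ : Fin n → V} {p r : Fin n} (h : ρ p ≠ ρ r) :
    uv a ρ p + uv a ρ r < n := by
  by_cases h1 : ρ p = a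
  · rw [uv_of_eq h1, uv_of_ne (fun h2 => h (h1.trans h2.symm))]
    exact p.2
  · rw [uv_of_ne h1, zero_add]
    by_cases h2 : ρ r = a
    · rw [uv_of_eq h2]; exact r.2
    · rw [uv_of_ne h2]; exact lt_of_le_of_lt (Nat.zero_le _) p.2

lemma off_lt {a : V} {D : Set V} {ρ : Fin n → V} {p r : Fin n} (h : ρ p ≠ ρ r) :
    off a D ρ p r < n := by
  classical
  have h1 := sum_lt (a := a) h
  unfold off
  split_ifs
  · omega
  · exact h1

/-- The label function of the blow-up. -/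
noncomputable def bLab (G : EOGraph V) (a b : V) (D : Set V) (ρ : Fin n → V) :
    Sym2 (Fin n) → ℕ :=
  Sym2.lift ⟨fun p r => n * QLab G a b (ρ p) (ρ r) + off a D ρ p r, fun p r => by
    change n * QLab G a b (ρ p) (ρ r) + off a D ρ p r =
      n * QLab G a b (ρ r) (ρ p) + off a D ρ r p
    rw [QLab_comm, off_comm]⟩

lemma bLab_mk (G : EOGraph V) (a b : V) (D : Set V) (ρ : Fin n → V) (p r : Fin n) :
    bLab G a b D ρ s(p, r) = n * QLab G a b (ρ p) (ρ r) + off a D ρ p r := rfl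

lemma split_eq {n A B o o' : ℕ} (ho : o < n) (ho' : o' < n) (h : n * A + o = n * B + o') :
    A = B ∧ o = o' := by
  have hn : 0 < n := by omega
  have h1 : (n * A + o) / n = A := by
    rw [Nat.mul_add_div hn, Nat.div_eq_of_lt ho, add_zero]
  have h2 : (n * B + o') / n = B := by
    rw [Nat.mul_add_div hn, Nat.div_eq_of_lt ho', add_zero]
  have h3 : A = B := by rw [← h1, h, h2]
  subst h3
  exact ⟨rfl, by omega⟩

lemma split_le {n A B o o' : ℕ} (ho' : o' < n) (h : n * A + o < n * B + o') : A ≤ B := by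
  by_contra hcon
  push Not at hcon
  have : n * (B + 1) ≤ n * A := Nat.mul_le_mul_left _ hcon
  rw [Nat.mul_add] at this
  omega

lemma split_lt {n A B o o' : ℕ} (ho : o < n) (h : A < B) : n * A + o < n * B + o' := by
  have : n * (A + 1) ≤ n * B := Nat.mul_le_mul_left _ h
  rw [Nat.mul_add] at this
  omega

lemma bLab_aux {a : V} {D : Set V} {ρ : Fin n → V}
    (hρ : ∀ p r, ρ p = ρ r → ρ p ≠ a → p = r) {p r p' r' : Fin n}
    (hne : ρ p ≠ ρ r) (h1 : ρ p = ρ p') (h2 : ρ r = ρ r')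
    (ho : off a D ρ p r = off a D ρ p' r') : s(p, r) = s(p', r') := by
  classical
  have hs1 := sum_lt (a := a) hne
  have hs2 := sum_lt (a := a) (show ρ p' ≠ ρ r' by rw [← h1, ← h2]; exact hne)
  have hs : uv a ρ p + uv a ρ r = uv a ρ p' + uv a ρ r' := by
    unfold off at ho
    rw [← h1, ← h2] at ho
    split_ifs at ho
    · omega
    · exact ho
  by_cases hp : ρ p = a
  · have hr : ρ r ≠ a := fun h => hne (hp.trans h.symm)
    have hr' : r = r' := hρ r r' h2 hr
    rw [uv_of_eq hp, uv_of_ne hr, uv_of_eq (h1 ▸ hp), uv_of_ne (h2 ▸ hr)] at hs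
    have : p = p' := Fin.ext (by omega)
    rw [this, hr']
  · have hp' : p = p' := hρ p p' h1 hp
    by_cases hr : ρ r = a
    · rw [uv_of_ne hp, uv_of_eq hr, uv_of_ne (h1 ▸ hp), uv_of_eq (h2 ▸ hr)] at hs
      have : r = r' := Fin.ext (by omega)
      rw [this, hp']
    · rw [hp', hρ r r' h2 hr]

/-- The blow-up as an edge-ordered graph on `Fin n`. -/
noncomputable def blow (G : EOGraph V) (a b : V) (D : Set V) (ρ : Fin n → V)
    (hρ : ∀ p r, ρ p = ρ r → ρ p ≠ a → p = r) : EOGraph (Fin n) where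
  graph :=
    { Adj := fun p r => QAdj G a b (ρ p) (ρ r)
      symm := ⟨fun _ _ h => h.symm⟩
      loopless := ⟨fun _ h => h.1 rfl⟩ }
  label := bLab G a b D ρ
  inj := by
    intro e he e' he' h
    induction e using Sym2.ind with
    | _ p r =>
      induction e' using Sym2.ind with
      | _ p' r' =>
        have h1 : QAdj G a b (ρ p) (ρ r) := he
        have h2 : QAdj G a b (ρ p') (ρ r') := he'
        rw [bLab_mk, bLab_mk] at h
        obtain ⟨hA, ho⟩ := split_eq (off_lt h1.1) (off_lt h2.1) h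
        obtain ⟨x, y, hx, hy, hxy, hl⟩ := QLab_mem h1
        obtain ⟨x', y', hx', hy', hxy', hl'⟩ := QLab_mem h2
        have h3 : s(x, y) = s(x', y') := G.inj _ hxy _ hxy' (by rw [← hl, ← hl', hA])
        rcases Sym2.eq_iff.1 h3 with ⟨h4, h5⟩ | ⟨h4, h5⟩
        · exact bLab_aux hρ h1.1 (by rw [← hx, ← hx', h4]) (by rw [← hy, ← hy', h5]) ho
        · rw [Sym2.eq_swap (a := p')]
          exact bLab_aux hρ h1.1 (by rw [← hx, ← hy', h4]) (by rw [← hy, ← hx', h5])
            (by rw [ho, off_comm])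

lemma blow_adj {G : EOGraph V} {a b : V} {D : Set V} {ρ : Fin n → V}
    (hρ : ∀ p r, ρ p = ρ r → ρ p ≠ a → p = r) {p r : Fin n} :
    (blow G a b D ρ hρ).graph.Adj p r ↔ QAdj G a b (ρ p) (ρ r) := Iff.rfl

lemma off_star {a : V} {D : Set V} {ρ : Fin n → V} {p r : Fin n} (hp : ρ p = a)
    (hr : ρ r ≠ a) : (ρ r ∈ D → off a D ρ p r = n - 1 - (p : ℕ)) ∧
      (ρ r ∉ D → off a D ρ p r = (p : ℕ)) := by
  classical
  unfold off
  rw [uv_of_eq hp, uv_of_ne hr, add_zero]
  constructor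
  · intro h
    exact if_pos (show Dec a D (ρ p) (ρ r) from Or.inl ⟨hp, h⟩)
  · intro h
    rw [if_neg]
    rintro (⟨_, h1⟩ | ⟨_, h1⟩)
    · exact h h1
    · exact hr h1

lemma blow_free {G : EOGraph V} {a b : V} {D : Set V} {ρ : Fin n → V}
    (hρ : ∀ p r, ρ p = ρ r → ρ p ≠ a → p = r) (hfold : ∀ φ t, ¬ Fold G a b D φ t) :
    ¬ Contains G (blow G a b D ρ hρ) := by
  rintro ⟨f, hf⟩
  have hlt : ∀ x y z w, G.graph.Adj x y → G.graph.Adj z w →
      G.label s(x, y) < G.label s(z, w) →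
      n * QLab G a b (ρ (f x)) (ρ (f y)) + off a D ρ (f x) (f y) <
        n * QLab G a b (ρ (f z)) (ρ (f w)) + off a D ρ (f z) (f w) := by
    intro x y z w hxy hzw hlt
    have h1 := hf.lt s(x, y) hxy s(z, w) hzw hlt
    change bLab G a b D ρ s(f x, f y) < bLab G a b D ρ s(f z, f w) at h1
    rw [bLab_mk, bLab_mk] at h1
    exact h1
  have hadj : ∀ x y, G.graph.Adj x y → QAdj G a b (ρ (f x)) (ρ (f y)) := fun x y hxy =>
    hf.adj x y hxy
  refine hfold (fun x => ρ (f x)) (fun x => (f x : ℕ)) ⟨?_, hadj, ?_, ?_, ?_, ?_⟩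
  · intro x y h1 h2
    exact hf.injective (hρ _ _ h1 h2)
  · intro x y z w hxy hzw h
    exact split_le (off_lt (hadj z w hzw).1) (hlt x y z w hxy hzw h)
  · exact fun x y h => hf.injective (Fin.ext h)
  · intro x z y w hxy hzw h hx hz hyw hD
    have h1 := hlt x y z w hxy hzw h
    have hy : ρ (f y) ≠ a := fun h2 => (hadj x y hxy).1 (hx.trans h2.symm)
    rw [(off_star hx hy).2 hD, (off_star hz (hyw ▸ hy)).2 (hyw ▸ hD), hx, hz, hyw] at h1
    omega
  · intro x z y w hxy hzw h hx hz hyw hD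
    have h1 := hlt x y z w hxy hzw h
    have hy : ρ (f y) ≠ a := fun h2 => (hadj x y hxy).1 (hx.trans h2.symm)
    rw [(off_star hx hy).1 hD, (off_star hz (hyw ▸ hy)).1 (hyw ▸ hD), hx, hz, hyw] at h1
    have := (f x).2
    have := (f z).2
    omega

end

end Pool.Agent.helper77.Sat
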