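import Mathlib
import Pool.Agent.helper63.SAT.Defs
import Pool.Agent.helper63.SAT.Greedy
import Pool.Agent.helper77.Sat.Defs
import Pool.Agent.helper77.Sat.Blow

/-!
# Saturation when the minimal edge does not fold
-/

namespace Pool.Agent.helper77.Sat

open Pool.Agent.helper63.SAT Pool.Agent.helper63.SAT.EOGraph

variable {V : Type*}

lemma proj_eq_cases {a b x y : V} (h : proj a b x = proj a b y) :
    x = y ∨ (x = a ∧ y = b) ∨ (x = b ∧ y = a) := by
  by_cases hx : x = b
  · by_cases hy : y = b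
    · exact Or.inl (hx.trans hy.symm)
    · rw [hx, proj_b, proj_ne hy] at h
      exact Or.inr (Or.inr ⟨hx, h.symm⟩)
  · by_cases hy : y = b
    · rw [hy, proj_b, proj_ne hx] at h
      exact Or.inr (Or.inl ⟨h, hy⟩)
    · rw [proj_ne hx, proj_ne hy] at h
      exact Or.inl h

lemma proj_a (a b : V) : proj a b a = a := by
  by_cases hab : a = b
  · rw [← hab]; exact proj_b a a
  · exact proj_ne hab

lemma proj_ne_of_adj {G : EOGraph V} {a b x y : V} (h : G.graph.Adj x y)
    (hne : s(x, y) ≠ s(a, b)) : proj a b x ≠ proj a b y := by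
  intro h1
  rcases proj_eq_cases h1 with h2 | ⟨h2, h3⟩ | ⟨h2, h3⟩
  · exact h.ne h2
  · exact hne (by rw [h2, h3])
  · exact hne (by rw [h2, h3, Sym2.eq_swap])

lemma qadj_of_adj {G : EOGraph V} {a b x y : V} (h : G.graph.Adj x y)
    (hne : s(x, y) ≠ s(a, b)) : QAdj G a b (proj a b x) (proj a b y) :=
  ⟨proj_ne_of_adj h hne, x, y, rfl, rfl, h⟩

lemma twin {G : EOGraph V} {a b z w z' w' : V} (hzw : G.graph.Adj z w)
    (hzw' : G.graph.Adj z' w') (hz : proj a b z' = proj a b z) (hw : proj a b w' = proj a b w)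
    (hne : s(z', w') ≠ s(z, w)) (hpq : proj a b z ≠ proj a b w) :
    ∃ c, G.graph.Adj a c ∧ G.graph.Adj b c ∧
      ((s(z', w') = s(a, c) ∧ s(z, w) = s(b, c)) ∨
        (s(z', w') = s(b, c) ∧ s(z, w) = s(a, c))) := by
  rcases proj_eq_cases hz with h1 | ⟨h1, h2⟩ | ⟨h1, h2⟩
  · rcases proj_eq_cases hw with h3 | ⟨h3, h4⟩ | ⟨h3, h4⟩
    · exact absurd (by rw [h1, h3]) hne
    · subst h1 h3 h4
      exact ⟨z', hzw'.symm, hzw.symm, Or.inl ⟨Sym2.eq_swap, Sym2.eq_swap⟩⟩
    · subst h1 h3 h4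
      exact ⟨z', hzw.symm, hzw'.symm, Or.inr ⟨Sym2.eq_swap, Sym2.eq_swap⟩⟩
  · rcases proj_eq_cases hw with h3 | ⟨h3, h4⟩ | ⟨h3, h4⟩
    · subst h1 h2 h3
      exact ⟨w', hzw', hzw, Or.inl ⟨rfl, rfl⟩⟩
    · exact absurd (by rw [h2, h4]) hpq
    · exact absurd (by rw [h2, h4, proj_b, proj_a]) hpq
  · rcases proj_eq_cases hw with h3 | ⟨h3, h4⟩ | ⟨h3, h4⟩
    · subst h1 h2 h3
      exact ⟨w', hzw, hzw', Or.inr ⟨rfl, rfl⟩⟩
    · exact absurd (by rw [h2, h4, proj_b, proj_a]) hpq
    · exact absurd (by rw [h2, h4]) hpq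

/-- Comparison of labels in the contraction. -/
lemma key {G : EOGraph V} {a b : V} (hc : Consecutive G a b) {x y z w : V}
    (hxy : G.graph.Adj x y) (hzw : G.graph.Adj z w) (h2 : s(z, w) ≠ s(a, b))
    (hlt : G.label s(x, y) < G.label s(z, w)) :
    QLab G a b (proj a b x) (proj a b y) < QLab G a b (proj a b z) (proj a b w) ∨
      (QLab G a b (proj a b x) (proj a b y) = QLab G a b (proj a b z) (proj a b w) ∧
        ∃ c, G.graph.Adj a c ∧ G.graph.Adj b c ∧
          ((s(x, y) = s(a, c) ∧ s(z, w) = s(b, c)) ∨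
            (s(x, y) = s(b, c) ∧ s(z, w) = s(a, c)))) := by
  have hq := qadj_of_adj hzw h2
  obtain ⟨z', w', hz, hw, hadj, hl⟩ := QLab_mem hq
  have hx := QLab_le (a := a) (b := b) hxy
  by_cases he : s(z', w') = s(z, w)
  · left
    rw [hl, he]
    omega
  · obtain ⟨c, hac, hbc, hcase⟩ := twin hzw hadj hz hw he hq.1
    have hle : G.label s(x, y) ≤ G.label s(z', w') := by
      by_contra hcon
      push Not at hcon
      have h3 := hc c hac hbc x y hxy
      rcases hcase with ⟨h4, h5⟩ | ⟨h4, h5⟩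
      · rw [h4] at hcon; rw [h5] at hlt
        exact h3.1 ⟨hcon, hlt⟩
      · rw [h4] at hcon; rw [h5] at hlt
        exact h3.2 ⟨hcon, hlt⟩
    rcases hle.lt_or_eq with h3 | h3
    · left
      rw [hl]
      omega
    · right
      have h4 : s(x, y) = s(z', w') := G.inj _ hxy _ hadj h3
      refine ⟨?_, c, hac, hbc, ?_⟩
      · rcases Sym2.eq_iff.1 h4 with ⟨h5, h6⟩ | ⟨h5, h6⟩
        · rw [h5, h6, hz, hw]
        · rw [h5, h6, hz, hw, QLab_comm]
      · rw [h4]; exact hcase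

section

variable {n : ℕ}

/-- The placement of `G`: `a` at `lo`, `b` at `hi`, the other vertices at their core vertices. -/
noncomputable def place (a b : V) (lo hi : Fin n) (j : V → Fin n) (v : V) : Fin n := by
  classical
  exact if v = a then lo else if v = b then hi else j v

lemma place_a (a b : V) (lo hi : Fin n) (j : V → Fin n) : place a b lo hi j a = lo := by
  simp [place]

lemma place_b {a b : V} (hab : a ≠ b) (lo hi : Fin n) (j : V → Fin n) :
    place a b lo hi j b = hi := by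
  simp [place, hab.symm]

lemma place_ne {a b v : V} (h1 : v ≠ a) (h2 : v ≠ b) (lo hi : Fin n) (j : V → Fin n) :
    place a b lo hi j v = j v := by
  simp [place, h1, h2]

lemma rho_place {a b : V} (hab : a ≠ b) {ρ : Fin n → V} {lo hi : Fin n} {j : V → Fin n}
    (hj : ∀ v, v ≠ a → v ≠ b → ρ (j v) = v) (hlo : ρ lo = a) (hhi : ρ hi = a) (v : V) :
    ρ (place a b lo hi j v) = proj a b v := by
  by_cases h1 : v = a
  · rw [h1, place_a, hlo, proj_a]
  · by_cases h2 : v = b
    · rw [h2, place_b hab, hhi, proj_b]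
    · rw [place_ne h1 h2, hj v h1 h2, proj_ne h2]

lemma place_inj {a b : V} (hab : a ≠ b) {ρ : Fin n → V} {lo hi : Fin n} {j : V → Fin n}
    (hj : ∀ v, v ≠ a → v ≠ b → ρ (j v) = v) (hlo : ρ lo = a) (hhi : ρ hi = a) (hlh : lo ≠ hi) :
    Function.Injective (place a b lo hi j) := by
  intro x y hxy
  have h1 := congrArg ρ hxy
  rw [rho_place hab hj hlo hhi, rho_place hab hj hlo hhi] at h1
  rcases proj_eq_cases h1 with h2 | ⟨h2, h3⟩ | ⟨h2, h3⟩
  · exact h2
  · exfalso
    rw [h2, h3, place_a, place_b hab] at hxy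
    exact hlh hxy
  · exfalso
    rw [h2, h3, place_a, place_b hab] at hxy
    exact hlh hxy.symm

lemma label_lt {G : EOGraph V} {a b : V} (hab : a ≠ b) (hc : Consecutive G a b) {D : Set V}
    (hD : ∀ c, G.graph.Adj a c → G.graph.Adj b c → (c ∈ D ↔ G.label s(b, c) < G.label s(a, c)))
    {ρ : Fin n → V} {lo hi : Fin n} {j : V → Fin n}
    (hj : ∀ v, v ≠ a → v ≠ b → ρ (j v) = v) (hlo : ρ lo = a) (hhi : ρ hi = a) (hlh : lo < hi)
    {x y z w : V} (hxy : G.graph.Adj x y) (hzw : G.graph.Adj z w) (h1 : s(x, y) ≠ s(a, b))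
    (h2 : s(z, w) ≠ s(a, b)) (hlt : G.label s(x, y) < G.label s(z, w)) :
    bLab G a b D ρ s(place a b lo hi j x, place a b lo hi j y) <
      bLab G a b D ρ s(place a b lo hi j z, place a b lo hi j w) := by
  classical
  have hr := rho_place hab hj hlo hhi
  rcases key hc hxy hzw h2 hlt with h3 | ⟨h3, c, hac, hbc, h4⟩
  · rw [bLab_mk, bLab_mk, hr, hr, hr, hr]
    refine split_lt (off_lt ?_) h3
    rw [hr, hr]
    exact proj_ne_of_adj hxy h1
  · have hca : c ≠ a := hac.ne'
    have hcb : c ≠ b := hbc.ne'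
    have hρc : ρ (place a b lo hi j c) = c := by rw [hr, proj_ne hcb]
    have hmap : ∀ {x y x' y' : V}, s(x, y) = s(x', y') →
        s(place a b lo hi j x, place a b lo hi j y) =
          s(place a b lo hi j x', place a b lo hi j y') := by
      intro x y x' y' h
      rcases Sym2.eq_iff.1 h with ⟨h5, h6⟩ | ⟨h5, h6⟩
      · rw [h5, h6]
      · rw [h5, h6, Sym2.eq_swap]
    have hn : (hi : ℕ) < n := hi.2
    have hlh' : (lo : ℕ) < hi := hlh
    have hρca : ρ (place a b lo hi j c) ≠ a := by rw [hρc]; exact hca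
    have hD' := hD c hac hbc
    rcases h4 with ⟨h5, h6⟩ | ⟨h5, h6⟩
    · rw [h5, h6] at hlt
      have hcD : ρ (place a b lo hi j c) ∉ D := by
        rw [hρc, hD']; omega
      rw [hmap h5, hmap h6, place_a, place_b hab, bLab_mk, bLab_mk, (off_star hlo hρca).2 hcD,
        (off_star hhi hρca).2 hcD, hlo, hhi]
      omega
    · rw [h5, h6] at hlt
      have hcD : ρ (place a b lo hi j c) ∈ D := by
        rw [hρc, hD']; exact hlt
      rw [hmap h5, hmap h6, place_a, place_b hab, bLab_mk, bLab_mk, (off_star hlo hρca).1 hcD,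
        (off_star hhi hρca).1 hcD, hlo, hhi]
      omega

lemma copy_place {G : EOGraph V} {a b : V} (hab : G.graph.Adj a b)
    (hmin : ∀ e ∈ G.graph.edgeSet, G.label s(a, b) ≤ G.label e) (hc : Consecutive G a b)
    {D : Set V}
    (hD : ∀ c, G.graph.Adj a c → G.graph.Adj b c → (c ∈ D ↔ G.label s(b, c) < G.label s(a, c)))
    {ρ : Fin n → V} (hρ : ∀ p r, ρ p = ρ r → ρ p ≠ a → p = r) {lo hi : Fin n} {j : V → Fin n}
    (hj : ∀ v, v ≠ a → v ≠ b → ρ (j v) = v) (hlo : ρ lo = a) (hhi : ρ hi = a) (hlh : lo < hi)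
    {H' : EOGraph (Fin n)} (hext : Ext (blow G a b D ρ hρ) H') {u v : Fin n} (huv : u ≠ v)
    (hs : s(u, v) = s(lo, hi)) (hadj : ¬ H'.graph.Adj u v) :
    Copy G (H'.addMin u v) (place a b lo hi j) := by
  have hr := rho_place hab.ne hj hlo hhi
  have hE : ∀ x y, G.graph.Adj x y → s(x, y) ≠ s(a, b) →
      (blow G a b D ρ hρ).graph.Adj (place a b lo hi j x) (place a b lo hi j y) := by
    intro x y hxy hne
    rw [blow_adj, hr, hr]
    exact qadj_of_adj hxy hne
  have hab' : s(place a b lo hi j a, place a b lo hi j b) = s(u, v) := by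
    rw [place_a, place_b hab.ne, hs]
  refine ⟨place_inj hab.ne hj hlo hhi hlh.ne, ?_, ?_⟩
  · intro x y hxy
    rw [addMin_graph, SimpleGraph.sup_adj]
    by_cases hne : s(x, y) = s(a, b)
    · right
      rw [SimpleGraph.edge_adj]
      rcases Sym2.eq_iff.1 hne with ⟨h1, h2⟩ | ⟨h1, h2⟩
      · rw [h1, h2]
        rcases Sym2.eq_iff.1 hab' with ⟨h3, h4⟩ | ⟨h3, h4⟩
        · rw [h3, h4]; exact ⟨Or.inl ⟨rfl, rfl⟩, huv⟩
        · rw [h3, h4]; exact ⟨Or.inr ⟨rfl, rfl⟩, huv.symm⟩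
      · rw [h1, h2]
        rcases Sym2.eq_iff.1 hab' with ⟨h3, h4⟩ | ⟨h3, h4⟩
        · rw [h3, h4]; exact ⟨Or.inr ⟨rfl, rfl⟩, huv.symm⟩
        · rw [h3, h4]; exact ⟨Or.inl ⟨rfl, rfl⟩, huv⟩
    · exact Or.inl (hext.le (hE x y hxy hne))
  · intro e he e' he' hlt
    induction e using Sym2.ind with
    | _ x y =>
    induction e' using Sym2.ind with
    | _ z w =>
      have hxy : G.graph.Adj x y := he
      have hzw : G.graph.Adj z w := he'
      have h2 : s(z, w) ≠ s(a, b) := by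
        intro h
        rw [h] at hlt
        have h9 := hmin s(x, y) hxy
        omega
      have h3 : s(place a b lo hi j z, place a b lo hi j w) ≠ s(u, v) :=
        ne_of_mem hadj (hext.le (hE z w hzw h2))
      rw [Sym2.map_mk, Sym2.map_mk]
      by_cases h1 : s(x, y) = s(a, b)
      · have h4 : s(place a b lo hi j x, place a b lo hi j y) = s(u, v) := by
          rcases Sym2.eq_iff.1 h1 with ⟨h5, h6⟩ | ⟨h5, h6⟩
          · rw [h5, h6]; exact hab'
          · rw [h5, h6, Sym2.eq_swap]; exact hab'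
        change (H'.addMin u v).label s(place a b lo hi j x, place a b lo hi j y) <
          (H'.addMin u v).label s(place a b lo hi j z, place a b lo hi j w)
        rw [h4, addMin_label_self, addMin_label_ne H' h3]
        omega
      · have h5 : s(place a b lo hi j x, place a b lo hi j y) ≠ s(u, v) :=
          ne_of_mem hadj (hext.le (hE x y hxy h1))
        change (H'.addMin u v).label s(place a b lo hi j x, place a b lo hi j y) <
          (H'.addMin u v).label s(place a b lo hi j z, place a b lo hi j w)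
        rw [addMin_label_ne H' h5, addMin_label_ne H' h3]
        have h6 := hext.lt _ (hE x y hxy h1) _ (hE z w hzw h2)
          (label_lt hab.ne hc hD hj hlo hhi hlh hxy hzw h1 h2 hlt)
        omega

lemma size_core {a : V} [Finite V] {ρ : Fin n → V} (hρ : ∀ p r, ρ p = ρ r → ρ p ≠ a → p = r)
    {H : EOGraph (Fin n)} (hH : H.graph.edgeSet ⊆ {e | ∃ p ∈ e, ρ p ≠ a}) :
    H.size ≤ Nat.card V * n := by
  classical
  have h1 : H.graph.edgeSet ⊆ (fun pr : Fin n × Fin n => s(pr.1, pr.2)) ''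
      ({p | ρ p ≠ a} ×ˢ (Set.univ : Set (Fin n))) := by
    intro e he
    obtain ⟨p, hp, hpa⟩ := hH he
    obtain ⟨r, rfl⟩ := Sym2.mem_iff_exists.1 hp
    exact ⟨(p, r), ⟨hpa, Set.mem_univ _⟩, rfl⟩
  have h2 : ({p | ρ p ≠ a} : Set (Fin n)).ncard ≤ Nat.card V := by
    have := Set.ncard_le_ncard_of_injOn (s := {p | ρ p ≠ a}) (t := Set.univ) ρ
      (fun _ _ => Set.mem_univ _) (fun p hp r _ h => hρ p r h hp) (Set.toFinite _)
    rwa [Set.ncard_univ] at this
  unfold size
  calc H.graph.edgeSet.ncard ≤ _ := Set.ncard_le_ncard h1 (Set.toFinite _)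
    _ ≤ ({p | ρ p ≠ a} ×ˢ (Set.univ : Set (Fin n))).ncard := Set.ncard_image_le (Set.toFinite _)
    _ = ({p | ρ p ≠ a} : Set (Fin n)).ncard * n := by
        rw [Set.ncard_prod, Set.ncard_univ, Nat.card_eq_fintype_card, Fintype.card_fin]
    _ ≤ _ := Nat.mul_le_mul_right _ h2

lemma exists_saturated_small [Finite V] {G : EOGraph V} {a b : V} (hab : G.graph.Adj a b)
    (hn : n < Nat.card V) :
    ∃ H : EOGraph (Fin n), Saturated G H ∧ H.size ≤ Nat.card V * n := by
  classical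
  let H₀ : EOGraph (Fin n) := ⟨⊥, fun _ => 0, fun e he => by simp at he⟩
  have h0 : ¬ Contains G H₀ := by
    rintro ⟨f, hf⟩
    exact hf.adj a b hab
  obtain ⟨H', _, h2, h3, _⟩ := greedy G Set.univ _ H₀ le_rfl h0
  refine ⟨H', ⟨h2, fun u v huv h => h3 u v huv h (Set.mem_univ _)⟩, ?_⟩
  have h1 : H'.graph.edgeSet ⊆ (fun pr : Fin n × Fin n => s(pr.1, pr.2)) '' Set.univ := by
    intro e _
    induction e using Sym2.ind with
    | _ x y => exact ⟨(x, y), Set.mem_univ _, rfl⟩
  unfold size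
  calc H'.graph.edgeSet.ncard ≤ _ := Set.ncard_le_ncard h1 (Set.toFinite _)
    _ ≤ (Set.univ : Set (Fin n × Fin n)).ncard := Set.ncard_image_le (Set.toFinite _)
    _ = n * n := by
        rw [Set.ncard_univ, Nat.card_eq_fintype_card, Fintype.card_prod, Fintype.card_fin]
    _ ≤ _ := Nat.mul_le_mul_right _ hn.le

theorem exists_saturated_nofold [Finite V] {G : EOGraph V} {a b : V} (hab : G.graph.Adj a b)
    (hmin : ∀ e ∈ G.graph.edgeSet, G.label s(a, b) ≤ G.label e) (hc : Consecutive G a b)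
    {D : Set V} (hD : NoFold G a b D) (n : ℕ) :
    ∃ H : EOGraph (Fin n), Saturated G H ∧ H.size ≤ Nat.card V * n := by
  classical
  rcases lt_or_ge n (Nat.card V) with hn | hn
  · exact exists_saturated_small hab hn
  have := Fintype.ofFinite V
  obtain ⟨j⟩ : Nonempty (V ↪ Fin n) := by
    apply Function.Embedding.nonempty_of_card_le
    rw [Fintype.card_fin, ← Nat.card_eq_fintype_card]
    exact hn
  let ρ : Fin n → V := fun p => if h : ∃ q, q ≠ a ∧ q ≠ b ∧ j q = p then h.choose else a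
  have hρj : ∀ p, ρ p ≠ a → j (ρ p) = p := by
    intro p hp
    by_cases h : ∃ q, q ≠ a ∧ q ≠ b ∧ j q = p
    · have h1 : ρ p = h.choose := dif_pos h
      rw [h1]
      exact h.choose_spec.2.2
    · exact absurd (dif_neg h) hp
  have hρ : ∀ p r, ρ p = ρ r → ρ p ≠ a → p = r := by
    intro p r h1 h2
    rw [← hρj p h2, h1, hρj r (h1 ▸ h2)]
  have hj : ∀ v, v ≠ a → v ≠ b → ρ (j v) = v := by
    intro v hva hvb
    have h : ∃ q, q ≠ a ∧ q ≠ b ∧ j q = j v := ⟨v, hva, hvb, rfl⟩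
    have h1 : ρ (j v) = h.choose := dif_pos h
    rw [h1]
    exact j.injective h.choose_spec.2.2
  obtain ⟨H', h1, h2, h3, h4⟩ := greedy G {e | ∃ p ∈ e, ρ p ≠ a} _ (blow G a b D ρ hρ) le_rfl
    (blow_free hρ hD.2)
  refine ⟨H', ⟨h2, fun u v huv h => ?_⟩, size_core hρ ?_⟩
  · by_cases hu : ρ u = a
    · by_cases hv : ρ v = a
      · rcases lt_or_gt_of_ne huv with hlt | hlt
        · exact ⟨_, copy_place hab hmin hc hD.1 hρ hj hu hv hlt h1 huv rfl h⟩
        · exact ⟨_, copy_place hab hmin hc hD.1 hρ hj hv hu hlt h1 huv Sym2.eq_swap h⟩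
      · exact h3 u v huv h ⟨v, Sym2.mem_mk_right u v, hv⟩
    · exact h3 u v huv h ⟨u, Sym2.mem_mk_left u v, hu⟩
  · intro e he
    rcases h4 he with h5 | h5
    · induction e using Sym2.ind with
      | _ p r =>
        have h6 : QAdj G a b (ρ p) (ρ r) := h5
        by_cases hp : ρ p = a
        · exact ⟨r, Sym2.mem_mk_right p r, fun h7 => h6.1 (hp.trans h7.symm)⟩
        · exact ⟨p, Sym2.mem_mk_left p r, hp⟩
    · exact h5

end

/-- If deleting `ab` lowers the chromatic number, then there is no fold. -/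
theorem no_fold_of_critical {G : EOGraph V} {a b : V} (h : Critical G a b) :
    ∃ D, NoFold G a b D := by
  obtain ⟨k, h1, ⟨C⟩⟩ := h
  refine ⟨{c | G.label s(b, c) < G.label s(a, c)}, fun c _ _ => Iff.rfl, ?_⟩
  intro φ t hφ
  have hdel : ∀ x y, G.graph.Adj x y → s(x, y) ≠ s(a, b) → C x ≠ C y := by
    intro x y hxy hne
    apply C.valid
    rw [SimpleGraph.deleteEdges_adj]
    exact ⟨hxy, hne⟩
  have hab : C a = C b := by
    by_contra hne
    apply h1
    refine ⟨SimpleGraph.Coloring.mk C fun {x y} hxy => ?_⟩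
    by_cases h2 : s(x, y) = s(a, b)
    · rcases Sym2.eq_iff.1 h2 with ⟨h3, h4⟩ | ⟨h3, h4⟩
      · rw [h3, h4]; exact hne
      · rw [h3, h4]; exact fun h5 => hne h5.symm
    · exact hdel x y hxy h2
  have hproj : ∀ x, C (proj a b x) = C x := by
    intro x
    by_cases hx : x = b
    · rw [hx, proj_b, hab]
    · rw [proj_ne hx]
  apply h1
  refine ⟨SimpleGraph.Coloring.mk (fun x => C (φ x)) fun {x y} hxy => ?_⟩
  obtain ⟨hne, x', y', hx, hy, hadj⟩ := hφ.adj x y hxy
  rw [← hx, ← hy, hproj, hproj]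
  apply hdel x' y' hadj
  intro h2
  apply hne
  rw [← hx, ← hy]
  rcases Sym2.eq_iff.1 h2 with ⟨h3, h4⟩ | ⟨h3, h4⟩
  · rw [h3, h4, proj_a, proj_b]
  · rw [h3, h4, proj_a, proj_b]

end Pool.Agent.helper77.Sat
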